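import Pool.Agent.Helper64.FL.StE

set_option autoImplicit false

/-!
FL, module PXI: the indices of pairs.
-/

namespace Pool.Agent.Helper64.FL

open Pool.Agent.Helper64.CT Pool.Agent.Helper64.DT
open Pool.Agent.Helper64.HG (Ovl Model Circ IC HellyCircle ChordModel)

theorem pxi_le {i j : ℕ} (h : i ≤ j) : px i j = 32 * j + i := by
  unfold px
  rw [Nat.ble_eq_true_of_le h]
  rfl

theorem pxi_gt {i j : ℕ} (h : j < i) : px i j = 32 * i + j := by
  unfold px
  have h' : Nat.ble i j = false := by
    rw [Bool.eq_false_iff]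
    intro h2
    exact absurd (Nat.le_of_ble_eq_true h2) (not_le.mpr h)
  rw [h']
  rfl

theorem pxi_max (i j : ℕ) : px i j = 32 * max i j + min i j := by
  rcases le_or_gt i j with h | h
  · rw [pxi_le h, max_eq_right h, min_eq_left h]
  · rw [pxi_gt h, max_eq_left h.le, min_eq_right h.le]

theorem pxi_ox (i j : ℕ) : ox i j = 32 * i + j := rfl

/-- PXI -/
theorem st_PXI : ST_PXI := by
  refine ⟨?_, ?_, ?_, ?_, pxi_max⟩
  · intro i j
    rw [pxi_max, pxi_max, max_comm, min_comm]
  · intro i j k l hi hj hk hl h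
    rcases le_or_gt i j with h1 | h1 <;> rcases le_or_gt k l with h2 | h2
    · rw [pxi_le h1, pxi_le h2] at h
      left
      omega
    · rw [pxi_le h1, pxi_gt h2] at h
      right
      omega
    · rw [pxi_gt h1, pxi_le h2] at h
      right
      omega
    · rw [pxi_gt h1, pxi_gt h2] at h
      left
      omega
  · intro i j k l hi hj hk hl h
    rw [pxi_ox, pxi_ox] at h
    omega
  · intro i j hi hj
    rw [pxi_ox]
    omega

end Pool.Agent.Helper64.FL
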