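import Pool.Agent.Helper64.FL.StH

set_option autoImplicit false

/-!
FL, module ARI: an arc with pairwise nonadjacent `n i` is an induced path.
-/

namespace Pool.Agent.Helper64.FL

open Pool.Agent.Helper64.CT Pool.Agent.Helper64.DT
open Pool.Agent.Helper64.HG (Ovl Model Circ IC HellyCircle ChordModel)

variable {V : Type}

theorem ari_arc (G : SimpleGraph V) (x : V) (n : ℕ → V) (P : ℕ → List V) (a t : ℕ)
    (h : Arc G x n P a (a + (t + 1))) : Arc G x n P (a + 1) (a + 1 + t) where
  ab := by omega
  xn i hi hi' := h.xn i (by omega) (by omega)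
  inj i j hi hij hj := h.inj i j (by omega) hij (by omega)
  ne i hi hi' := h.ne i (by omega) (by omega)
  ip i hi hi' := h.ip i (by omega) (by omega)
  far i hi hi' := h.far i (by omega) (by omega)
  fst i hi hi' := h.fst i (by omega) (by omega)
  lst i hi hi' := h.lst i (by omega) (by omega)
  cln i j hi hi' hj hj' h1 h2 := h.cln i j (by omega) (by omega) (by omega) (by omega) h1 h2
  sep i j hi hij hj := h.sep i j (by omega) hij (by omega)

theorem ari_far (G : SimpleGraph V) (x : V) (n : ℕ → V) (P : ℕ → List V) (a b : ℕ)
    (h : Arc G x n P a b) (i j : ℕ) (hi : a ≤ i) (hi' : i < b) (hj : a ≤ j) (hj' : j ≤ b)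
    (u : V) (hu : u ∈ P i) : u ≠ n j := by
  rintro rfl
  exact (h.far i hi hi' _ hu).2 (h.xn j hj hj')

open Classical in
theorem ari_rungs (G : SimpleGraph V) (h k : V) (A B : List V) :
    rungs G h k (A ++ B) = rungs G h k A + rungs G h k B := by
  unfold rungs
  rw [List.filter_append, List.length_append]

open Classical in
theorem ari_rungs1 (G : SimpleGraph V) (h k x : V) (hx : G.Adj h x) (hx' : G.Adj k x) :
    rungs G h k [x] = 1 := by
  unfold rungs
  rw [List.filter_cons_of_pos (by simp [hx, hx'])]
  rfl

open Classical in
theorem ari_rungs0 (G : SimpleGraph V) (h k : V) (A : List V) (hA : ∀ u ∈ A, ¬ G.Adj h u) :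
    rungs G h k A = 0 := by
  unfold rungs
  rw [List.length_eq_zero_iff, List.filter_eq_nil_iff]
  intro u hu
  simp [hA u hu]

/-- ARI -/
theorem st_ARI (hJIN : ST_JIN) : ST_ARI := by
  intro V G x n P a t
  induction t generalizing a with
  | zero =>
    intro hA _
    refine ⟨⟨?_, ?_, ?_, trivial⟩, rfl, rfl, ?_, ?_⟩
    · intro y hy
      simp at hy
    · intro y hy
      simp at hy
    · intro y hy
      simp at hy
    · intro v
      constructor
      · intro hv
        left
        have : v = n a := by simpa [arcL] using hv
        exact ⟨a, le_rfl, le_rfl, this⟩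
      · rintro (⟨i, hi, hi', rfl⟩ | ⟨i, hi, hi', _⟩)
        · have : i = a := by omega
          rw [this]
          simp [arcL]
        · omega
    · intro h k h1 _
      have h2 := h1 a le_rfl le_rfl
      exact ari_rungs1 G h k (n a) h2.1 h2.2
  | succ t ih =>
    intro hA hst
    have hA' := ari_arc G x n P a t hA
    obtain ⟨i1, i2, i3, i4, i5⟩ := ih (a + 1) hA' (fun i j hi hij hj =>
      hst i j (by omega) hij (by omega))
    set L := arcL n P (a + 1) t with hL
    have e : arcL n P a (t + 1) = [n a] ++ (P a ++ L) := rfl
    have hPne : P a ≠ [] := hA.ne a le_rfl (by omega)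
    have hhd : (P a ++ L).head? = (P a).head? := by
      cases hPa : P a with
      | nil => exact absurd hPa hPne
      | cons b B => rfl
    have s1 : IPt G (P a ++ L) := by
      apply hJIN V G _ _ (hA.ip a le_rfl (by omega)) i1
      intro u hu w hw
      rcases (i4 w).mp hw with ⟨i, hi, hi', rfl⟩ | ⟨i, hi, hi', hwi⟩
      · refine ⟨ari_far G x n P a _ hA a i le_rfl (by omega) (by omega) (by omega) u hu, ?_⟩
        by_cases h1 : i = a + 1
        · rw [h1, i2, SimpleGraph.adj_comm, hA.lst a le_rfl (by omega) u hu]
          exact ⟨fun h => ⟨h, rfl⟩, fun h => h.1⟩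
        · constructor
          · intro h
            exact absurd h.symm (hA.cln a i le_rfl (by omega) (by omega) (by omega) (by omega) h1
              u hu)
          · rintro ⟨_, h⟩
            rw [i2] at h
            exact absurd (Option.some.inj h) (hA.inj (a + 1) i (by omega) (by omega) (by omega))
      · have hs := hA.sep a i le_rfl (by omega) (by omega) u hu w hwi
        refine ⟨hs.1, fun h => absurd h hs.2, ?_⟩
        rintro ⟨_, h⟩
        rw [i2] at h
        exact absurd (Option.some.inj h).symm
          (ari_far G x n P a _ hA i (a + 1) (by omega) (by omega) (by omega) (by omega) w hwi)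
    have s2 : IPt G ([n a] ++ (P a ++ L)) := by
      have hna : IPt G [n a] := by
        refine ⟨?_, ?_, ?_, trivial⟩ <;>
        · intro y hy
          simp at hy
      apply hJIN V G _ _ hna s1
      intro u hu w hw
      obtain rfl : u = n a := by simpa using hu
      rw [hhd]
      rcases List.mem_append.mp hw with hw | hw
      · refine ⟨(ari_far G x n P a _ hA a a le_rfl (by omega) le_rfl (by omega) w hw).symm, ?_⟩
        rw [hA.fst a le_rfl (by omega) w hw]
        exact ⟨fun h => ⟨rfl, h⟩, fun h => h.2⟩
      · rcases (i4 w).mp hw with ⟨i, hi, hi', rfl⟩ | ⟨i, hi, hi', hwi⟩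
        · refine ⟨hA.inj a i le_rfl (by omega) (by omega),
            fun h => absurd h (hst a i le_rfl (by omega) (by omega)), ?_⟩
          rintro ⟨_, h⟩
          exact absurd rfl (ari_far G x n P a _ hA a i le_rfl (by omega) (by omega) (by omega) _
            (List.mem_of_head? h))
        · refine ⟨(ari_far G x n P a _ hA i a (by omega) (by omega) le_rfl (by omega) w hwi).symm,
            fun h => absurd h (hA.cln i a (by omega) (by omega) le_rfl (by omega) (by omega)
              (by omega) w hwi), ?_⟩
          rintro ⟨_, h⟩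
          exact absurd rfl (hA.sep a i le_rfl (by omega) (by omega) w (List.mem_of_head? h) w
            hwi).1
    refine ⟨by rw [e]; exact s2, rfl, ?_, ?_, ?_⟩
    · rw [e, List.getLast?_append, List.getLast?_append, i3]
      rw [show a + (t + 1) = a + 1 + t by omega]
      rfl
    · intro v
      rw [e, List.mem_append, List.mem_append, i4 v, List.mem_singleton]
      constructor
      · rintro (h | h | ⟨i, hi, hi', h⟩ | ⟨i, hi, hi', h⟩)
        · exact Or.inl ⟨a, le_rfl, by omega, h⟩
        · exact Or.inr ⟨a, le_rfl, by omega, h⟩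
        · exact Or.inl ⟨i, by omega, by omega, h⟩
        · exact Or.inr ⟨i, by omega, by omega, h⟩
      · rintro (⟨i, hi, hi', h⟩ | ⟨i, hi, hi', h⟩)
        · by_cases h1 : i = a
          · rw [h1] at h
            exact Or.inl h
          · exact Or.inr (Or.inr (Or.inl ⟨i, by omega, by omega, h⟩))
        · by_cases h1 : i = a
          · rw [h1] at h
            exact Or.inr (Or.inl h)
          · exact Or.inr (Or.inr (Or.inr ⟨i, by omega, by omega, h⟩))
    · intro h k h1 h2
      rw [e, ari_rungs, ari_rungs]
      have k1 := h1 a le_rfl (by omega)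
      rw [ari_rungs1 G h k (n a) k1.1 k1.2,
        ari_rungs0 G h k (P a) (fun u hu => (h2 a le_rfl (by omega) u hu).1),
        i5 h k (fun i hi hi' => h1 i (by omega) (by omega))
          (fun i hi hi' => h2 i (by omega) (by omega))]
      omega

end Pool.Agent.Helper64.FL
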