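import Pool.Agent.Helper64.FL.StH
import Pool.Agent.Helper24.FF.Stmts

set_option autoImplicit false

/-!
FL, module LDS: ladders without connector, from the statements LNJ and NNS of part F.
-/

namespace Pool.Agent.Helper64.FL

open Pool.Agent.Helper64.CT Pool.Agent.Helper64.DT
open Pool.Agent.Helper64.HG (Ovl Model Circ IC HellyCircle ChordModel)

/-- LDS -/
theorem st_LDS (hLNJ : Pool.Agent.Helper24.FF.ST_LNJ) (hNNS : Pool.Agent.Helper24.FF.ST_NNS) :
    ST_LDS := by
  intro V G S h k M a b hL hhS hkS hM hpar hN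
  have hsub : ({h, k} ∪ Pool.Agent.Helper24.FF.LS M : Set V) ⊆ S := by
    rintro x (hx | hx)
    · rcases hx with hx | hx
      · rw [hx]
        exact hhS
      · rw [Set.mem_singleton_iff.mp hx]
        exact hkS
    · exact hM x hx
  refine hLNJ V G h k M a b hL ?_ ?_ ?_ ((hNNS V G S).2 _ hsub hN)
  · rcases hpar with h1 | h1 <;> omega
  · intro h2
    rcases hpar with h1 | h1 <;> omega
  · rcases hpar with h1 | h1
    · exact ⟨fun _ => h1.2.1, fun _ => h1.1⟩
    · constructor
      · intro h2
        exact absurd h2 h1.1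
      · intro h2
        exact absurd h1.2.1 (Nat.not_even_iff_odd.mpr h2)

end Pool.Agent.Helper64.FL
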