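import Pool.Agent.Helper64.FL.StH

set_option autoImplicit false

/-!
FL, module MOC: minimal odd cycles of conflicts.
-/

namespace Pool.Agent.Helper64.FL

open Pool.Agent.Helper64.CT Pool.Agent.Helper64.DT
open Pool.Agent.Helper64.HG (Ovl Model Circ IC HellyCircle ChordModel)

variable {V : Type}

/-- odd closed walk of conflicts -/
def moc_O (G : SimpleGraph V) (x : V) (k : ℕ) (y : ℕ → V) : Prop :=
  Odd k ∧ (∀ i, y (i + k) = y i) ∧ ∀ i, Conf G x (y i) (y (i + 1))

theorem moc_irr (G : SimpleGraph V) (x y z : V) (h : Conf G x y z) : y ≠ z := by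
  rintro rfl
  exact h.1 (Comp.refl h.far.1)

/-- closing a walk -/
theorem moc_close (G : SimpleGraph V) (x : V) (m : ℕ) (w : ℕ → V) (hm : Odd m)
    (h1 : ∀ r, r + 1 < m → Conf G x (w r) (w (r + 1))) (h2 : Conf G x (w (m - 1)) (w 0)) :
    moc_O G x m (fun l => w (l % m)) := by
  have hm0 : 0 < m := hm.pos
  refine ⟨hm, ?_, ?_⟩
  · intro i
    show w ((i + m) % m) = w (i % m)
    rw [Nat.add_mod_right]
  · intro i
    show Conf G x (w (i % m)) (w ((i + 1) % m))
    have hlt : i % m < m := Nat.mod_lt _ hm0
    by_cases h : i % m + 1 < m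
    · have e : (i + 1) % m = i % m + 1 := by
        rw [← Nat.mod_add_mod, Nat.mod_eq_of_lt h]
      rw [e]
      exact h1 _ h
    · have e1 : i % m = m - 1 := by omega
      have e2 : (i + 1) % m = 0 := by
        rw [← Nat.mod_add_mod, e1, show m - 1 + 1 = m by omega, Nat.mod_self]
      rw [e1, e2]
      exact h2

/-- the setoid of the components -/
def moc_S (G : SimpleGraph V) (x : V) : Setoid V where
  r y z := y = z ∨ Comp G x y z
  iseqv := by
    refine ⟨fun y => Or.inl rfl, ?_, ?_⟩
    · rintro y z (h | h)
      · exact Or.inl h.symm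
      · exact Or.inr h.symm
    · rintro y z w (h | h) (h' | h')
      · exact Or.inl (h.trans h')
      · rw [h]
        exact Or.inr h'
      · rw [← h']
        exact Or.inr h
      · exact Or.inr (h.trans h')

theorem moc_cg (G : SimpleGraph V) (x y z y' z' : V) (h : Conf G x y z)
    (hy : (moc_S G x).r y y') (hz : (moc_S G x).r z z') : Conf G x y' z' := by
  have hy' : Comp G x y y' := by
    rcases hy with h1 | h1
    · rw [← h1]
      exact Comp.refl h.far.1
    · exact h1
  have hz' : Comp G x z z' := by
    rcases hz with h1 | h1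
    · rw [← h1]
      exact Comp.refl h.far.2
    · exact h1
  exact h.congr hy' hz'

/-- the graph of the conflicts -/
def moc_H (G : SimpleGraph V) (x : V) : SimpleGraph (Quotient (moc_S G x)) where
  Adj q q' := ∃ y z, Quotient.mk (moc_S G x) y = q ∧ Quotient.mk (moc_S G x) z = q' ∧ Conf G x y z
  symm := ⟨fun _ _ ⟨y, z, h1, h2, h3⟩ => ⟨z, y, h2, h1, h3.symm⟩⟩
  loopless := ⟨fun q ⟨y, z, h1, h2, h3⟩ => by
    have h4 : (moc_S G x).r y z := Quotient.exact (h1.trans h2.symm)
    rcases h4 with h4 | h4
    · exact moc_irr G x y z h3 h4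
    · exact h3.1 h4⟩

theorem moc_ex (G : SimpleGraph V) (h : ¬ CII G) : ∃ x k y, moc_O G x k y := by
  by_contra hcon
  apply h
  intro x
  have heven : ∀ (u : Quotient (moc_S G x)) (w : (moc_H G x).Walk u u), Even w.length := by
    intro u w
    by_contra hodd
    rw [Nat.not_even_iff_odd] at hodd
    apply hcon
    have hpos : 0 < w.length := hodd.pos
    have hcf : ∀ q q' : Quotient (moc_S G x), (moc_H G x).Adj q q' →
        Conf G x q.out q'.out := by
      rintro q q' ⟨y, z, h1, h2, h3⟩
      apply moc_cg G x y z _ _ h3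
      · exact Quotient.exact (h1.trans (Quotient.out_eq q).symm)
      · exact Quotient.exact (h2.trans (Quotient.out_eq q').symm)
    refine ⟨x, w.length, _, moc_close G x w.length (fun r => (w.getVert r).out) hodd ?_ ?_⟩
    · intro r hr
      exact hcf _ _ (w.adj_getVert_succ (by omega))
    · have h1 := hcf _ _ (w.adj_getVert_succ (i := w.length - 1) (by omega))
      rw [show w.length - 1 + 1 = w.length by omega, w.getVert_length] at h1
      show Conf G x (w.getVert (w.length - 1)).out (w.getVert 0).out
      rw [w.getVert_zero]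
      exact h1
  have hcol := SimpleGraph.two_colorable_iff_forall_loop_even.mpr heven
  obtain ⟨C⟩ := hcol
  refine ⟨fun y => decide (C (Quotient.mk (moc_S G x) y) = 0), ?_, ?_⟩
  · intro y z hyz
    have h1 : Quotient.mk (moc_S G x) y = Quotient.mk (moc_S G x) z := Quotient.sound (Or.inr hyz)
    show decide (C (Quotient.mk (moc_S G x) y) = 0) = decide (C (Quotient.mk (moc_S G x) z) = 0)
    rw [h1]
  · intro y z hyz heq
    have h1 : C (Quotient.mk (moc_S G x) y) ≠ C (Quotient.mk (moc_S G x) z) :=
      C.valid ⟨y, z, rfl, rfl, hyz⟩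
    have h2 : (C (Quotient.mk (moc_S G x) y) = 0) ↔ (C (Quotient.mk (moc_S G x) z) = 0) :=
      decide_eq_decide.mp heq
    generalize C (Quotient.mk (moc_S G x) y) = p at h1 h2
    generalize C (Quotient.mk (moc_S G x) z) = q at h1 h2
    revert h1 h2
    revert p q
    decide

/-- MOC -/
theorem st_MOC : ST_MOC := by
  classical
  intro V G h3 hC
  have hex : ∃ k, ∃ x y, moc_O G x k y := by
    obtain ⟨x, k, y, h⟩ := moc_ex G hC
    exact ⟨k, x, y, h⟩
  obtain ⟨k, hk⟩ : ∃ k, k = Nat.find hex := ⟨_, rfl⟩
  obtain ⟨x, y, hodd, hper, hcf⟩ : ∃ x y, moc_O G x k y := by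
    rw [hk]
    exact Nat.find_spec hex
  have hmin : ∀ m, m < k → ∀ x' z, ¬ moc_O G x' m z := by
    intro m hm x' z hz
    rw [hk] at hm
    exact Nat.find_min hex hm ⟨x', z, hz⟩
  have h1 : k ≠ 1 := by
    intro h
    have h0 := hcf 0
    have h2 := hper 0
    rw [h] at h2
    rw [h2] at h0
    exact moc_irr G x _ _ h0 rfl
  have h33 : k ≠ 3 := by
    intro h
    have e1 := hcf 0
    have e2 := hcf 1
    have e3 := hcf 2
    have h2 := hper 0
    rw [h] at h2
    rw [show 2 + 1 = 0 + 3 by norm_num, h2] at e3
    exact h3 x (y 0) (y 1) (y 2) e1 e3.symm e2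
  have hk5 : 5 ≤ k := by
    obtain ⟨t, ht⟩ := hodd
    omega
  refine ⟨x, k, y, hodd, hk5, hper, hcf, ?_, ?_, ?_⟩
  · intro i j hij hji hc
    rcases Nat.even_or_odd (j - i + 1) with he | ho
    · have ho2 : Odd (i + k - j + 1) := by
        rw [← Nat.not_even_iff_odd]
        intro he2
        have he3 := he.add he2
        have e : j - i + 1 + (i + k - j + 1) = k + 2 := by omega
        rw [e] at he3
        rw [Nat.even_add] at he3
        exact (Nat.not_even_iff_odd.mpr hodd) (he3.mpr (by decide))
      refine hmin (i + k - j + 1) (by omega) x _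
        (moc_close G x (i + k - j + 1) (fun r => y (j + r)) ho2 ?_ ?_)
      · intro r _
        exact hcf (j + r)
      · show Conf G x (y (j + (i + k - j + 1 - 1))) (y (j + 0))
        rw [show j + (i + k - j + 1 - 1) = i + k by omega, hper i, Nat.add_zero]
        exact hc
    · refine hmin (j - i + 1) (by omega) x _
        (moc_close G x (j - i + 1) (fun r => y (i + r)) ho ?_ ?_)
      · intro r _
        exact hcf (i + r)
      · show Conf G x (y (i + (j - i + 1 - 1))) (y (i + 0))
        rw [show i + (j - i + 1 - 1) = j by omega, Nat.add_zero]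
        exact hc.symm
  · intro i j hij hji hc
    rcases Nat.even_or_odd (j - i) with he | ho
    · have ho2 : Odd (i + k - j) := by
        rw [← Nat.not_even_iff_odd]
        intro he2
        have he3 := he.add he2
        have e : j - i + (i + k - j) = k := by omega
        rw [e] at he3
        exact (Nat.not_even_iff_odd.mpr hodd) he3
      refine hmin (i + k - j) (by omega) x _
        (moc_close G x (i + k - j) (fun r => y (j + r)) ho2 ?_ ?_)
      · intro r _
        exact hcf (j + r)
      · show Conf G x (y (j + (i + k - j - 1))) (y (j + 0))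
        have h5 := hcf (j + (i + k - j - 1))
        rw [show j + (i + k - j - 1) + 1 = i + k by omega, hper i] at h5
        rw [Nat.add_zero]
        exact h5.congr (Comp.refl h5.far.1) hc
    · refine hmin (j - i) (by omega) x _
        (moc_close G x (j - i) (fun r => y (i + r)) ho ?_ ?_)
      · intro r _
        exact hcf (i + r)
      · show Conf G x (y (i + (j - i - 1))) (y (i + 0))
        have h5 := hcf (i + (j - i - 1))
        rw [show i + (j - i - 1) + 1 = j by omega] at h5
        rw [Nat.add_zero]
        exact h5.congr (Comp.refl h5.far.1) hc.symm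
  · intro x' m z hm hmk hz hcz
    exact hmin m hmk x' z ⟨hm, hz, hcz⟩

end Pool.Agent.Helper64.FL
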