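import Pool.Agent.Helper64.FL.StC

/-! QHC: the component of `u` splits `x`, `s`, the component of `u'` splits `x`, `n`. -/

set_option autoImplicit false

namespace Pool.Agent.Helper64.FL

open Pool.Agent.Helper64.CT Pool.Agent.Helper64.DT
open Pool.Agent.Helper64.HG (Ovl Model Circ IC HellyCircle ChordModel)

theorem qhc_far {V : Type} {G : SimpleGraph V} {x y u : V} (h : u ∈ KC G x y) :
    x ≠ u ∧ ¬ G.Adj x u := by
  obtain ⟨-, hz, -⟩ := h
  exact ⟨fun e => hz.1 e.symm, hz.2⟩

theorem qhc_pth {V : Type} {G : SimpleGraph V} {a w : V} {l : List V} (h : Pth G a l w)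
    (hne : a ≠ w) : IPt G (a :: (l ++ [w])) := by
  rcases h with ⟨h, -⟩ | ⟨-, h⟩
  · exact absurd h hne
  · exact h

theorem qhc_tri {V : Type} {G : SimpleGraph V} {a w : V} {l : List V} (h : Pth G a l w)
    (he : a = w) : l = [] := by
  rcases h with ⟨-, h⟩ | ⟨h, -⟩
  · exact h
  · exact absurd he h

theorem qhc_nin {V : Type} {G : SimpleGraph V} : ∀ (l : List V) (a w : V),
    IPt G (a :: (l ++ [w])) → a ∉ l ∧ w ∉ l
  | [], _, _, _ => ⟨by simp, by simp⟩
  | b :: l, a, w, h => by
    obtain ⟨h1, -, -, h4⟩ := h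
    obtain ⟨-, h6⟩ := qhc_nin l b w h4
    refine ⟨fun hm => h1 a (List.mem_append_left _ hm) rfl, fun hm => ?_⟩
    rcases List.mem_cons.1 hm with e | hm
    · exact h4.1 w (by simp) e.symm
    · exact h6 hm

theorem qhc_nip {V : Type} {G : SimpleGraph V} {a w : V} {l : List V} (h : Pth G a l w) :
    a ∉ l ∧ w ∉ l := by
  rcases h with ⟨-, h⟩ | ⟨-, h⟩
  · subst h
    simp
  · exact qhc_nin l a w h

theorem qhc_sep {V : Type} {G : SimpleGraph V} {y u u' : V} (h : ¬ Comp G y u u') :
    ∀ v ∈ KC G y u, ∀ v' ∈ KC G y u', v ≠ v' ∧ ¬ G.Adj v v' := by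
  rintro v ⟨hu, hv, r1⟩ v' ⟨hu', hv', r2⟩
  refine ⟨fun e => ?_, fun e => ?_⟩
  · subst e
    exact h ⟨hu, hu', r1.trans r2.symm⟩
  · have e' : (G.induce (Far G y)).Adj ⟨v, hv⟩ ⟨v', hv'⟩ := e
    exact h ⟨hu, hu', (r1.trans e'.reachable).trans r2.symm⟩

theorem st_QHC : ST_QHC := by
  intro V G hN x y z n s u u' M w exy exz eyz eyn nFx nFz eys sFx sFz hsn hcc huz hux hus hsp
    eux eun nuz pM hw
  have AA := qhc_sep hcc
  obtain ⟨l, r, L, hLL⟩ := hsp
  obtain ⟨lK, rK, LK, pL⟩ : l ∈ KC G y u ∧ r ∈ KC G y u ∧ (∀ v ∈ L, v ∈ KC G y u) ∧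
      Pth G l L r := by
    rcases hLL with ⟨-, -, h⟩ | ⟨-, -, h, -⟩ <;> exact ⟨h.lK, h.rK, h.LK, h.pth⟩
  have uK := pM.lK
  have wK := pM.rK
  have MK := pM.LK
  have n3 : ∀ v ∈ KC G y u, G.Adj v x ↔ G.Adj v n := fun v hv => hux v hv
  have s4 : ∀ v ∈ KC G y u', G.Adj v x ↔ G.Adj v s := fun v hv => hus v hv
  have zn : ∀ v ∈ KC G y u, ¬ G.Adj z v := fun v hv => huz v hv
  -- vertices adjacent to y are outside the components
  have nadj : ∀ {t v c : V}, G.Adj y t → v ∈ KC G y c → v ≠ t := by
    intro t v c hs hv h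
    rw [h] at hv
    exact (qhc_far hv).2 hs
  have eyx : G.Adj y x := exy.symm
  -- nonadjacent pairs
  have d30 : n ≠ x ∧ ¬ G.Adj n x := ⟨nFx.1, fun h => nFx.2 h.symm⟩
  have d32 : n ≠ z ∧ ¬ G.Adj n z := ⟨nFz.1, fun h => nFz.2 h.symm⟩
  have d40 : s ≠ x ∧ ¬ G.Adj s x := ⟨sFx.1, fun h => sFx.2 h.symm⟩
  have d42 : s ≠ z ∧ ¬ G.Adj s z := ⟨sFz.1, fun h => sFz.2 h.symm⟩
  have d15 := qhc_far lK
  have d16 := qhc_far rK
  have d17 := qhc_far uK
  have d18 := qhc_far wK
  have d25 : z ≠ l ∧ ¬ G.Adj z l := ⟨(nadj eyz lK).symm, zn l lK⟩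
  have d26 : z ≠ r ∧ ¬ G.Adj z r := ⟨(nadj eyz rK).symm, zn r rK⟩
  have d75 : u' ≠ l ∧ ¬ G.Adj u' l := ⟨(AA l lK u' uK).1.symm, fun h => (AA l lK u' uK).2 h.symm⟩
  have d76 : u' ≠ r ∧ ¬ G.Adj u' r := ⟨(AA r rK u' uK).1.symm, fun h => (AA r rK u' uK).2 h.symm⟩
  have d85 : w ≠ l ∧ ¬ G.Adj w l := ⟨(AA l lK w wK).1.symm, fun h => (AA l lK w wK).2 h.symm⟩
  have d86 : w ≠ r ∧ ¬ G.Adj w r := ⟨(AA r rK w wK).1.symm, fun h => (AA r rK w wK).2 h.symm⟩
  have d72 : u' ≠ z ∧ ¬ G.Adj u' z := ⟨nadj eyz uK, nuz⟩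
  have m34 : n ≠ s := fun h => hsn h.symm
  have m72 : u' ≠ z := nadj eyz uK
  have m82 : w ≠ z := nadj eyz wK
  have e74 : G.Adj u' s := (s4 u' uK).1 eux
  -- vertices not on the paths
  obtain ⟨l5, l6⟩ := qhc_nip pL
  obtain ⟨k7, k8⟩ := qhc_nip pM.pth
  have nl : ∀ {t : V}, G.Adj y t → t ∉ L := fun hs hm => nadj hs (LK _ hm) rfl
  have nk : ∀ {t : V}, G.Adj y t → t ∉ M := fun hs hm => nadj hs (MK _ hm) rfl
  have l1 : y ∉ L := fun hm => (qhc_far (LK _ hm)).1 rfl
  have k1 : y ∉ M := fun hm => (qhc_far (MK _ hm)).1 rfl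
  have l0 : x ∉ L := nl eyx
  have l2 : z ∉ L := nl eyz
  have l3 : n ∉ L := nl eyn
  have l4 : s ∉ L := nl eys
  have k0 : x ∉ M := nk eyx
  have k2 : z ∉ M := nk eyz
  have k3 : n ∉ M := nk eyn
  have k4 : s ∉ M := nk eys
  have l7 : u' ∉ L := fun hm => (AA u' (LK _ hm) u' uK).1 rfl
  have l8 : w ∉ L := fun hm => (AA w (LK _ hm) w wK).1 rfl
  have k5 : l ∉ M := fun hm => (AA l lK l (MK _ hm)).1 rfl
  have k6 : r ∉ M := fun hm => (AA r rK r (MK _ hm)).1 rfl
  -- clean paths
  have cl1 : ∀ v ∈ L, ¬ G.Adj y v := fun v hv => (qhc_far (LK v hv)).2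
  have cl2 : ∀ v ∈ L, ¬ G.Adj z v := fun v hv => zn v (LK v hv)
  have cl7 : ∀ v ∈ L, ¬ G.Adj u' v := fun v hv h => (AA v (LK v hv) u' uK).2 h.symm
  have cl8 : ∀ v ∈ L, ¬ G.Adj w v := fun v hv h => (AA v (LK v hv) w wK).2 h.symm
  have ck1 : ∀ v ∈ M, ¬ G.Adj y v := fun v hv => (qhc_far (MK v hv)).2
  have ck5 : ∀ v ∈ M, ¬ G.Adj l v := fun v hv => (AA l lK v (MK v hv)).2
  have ck6 : ∀ v ∈ M, ¬ G.Adj r v := fun v hv => (AA r rK v (MK v hv)).2
  have sp : ([L, M] : List (List V)).Pairwise
      (fun A B => ∀ x ∈ A, ∀ y ∈ B, x ≠ y ∧ ¬ G.Adj x y) := by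
    simp only [List.pairwise_cons, List.mem_cons, List.not_mem_nil, or_false, forall_eq,
      List.Pairwise.nil, and_true, false_imp_iff, implies_true]
    intro v hv v' hv'
    exact AA v (LK v hv) v' (MK v' hv')
  have plr : l ≠ r → IPt G (l :: (L ++ [r])) := qhc_pth pL
  have puw : u' ≠ w → IPt G (u' :: (M ++ [w])) := qhc_pth pM.pth
  have qlr : l = r → L = [] := qhc_tri pL
  have quw : u' = w → M = [] := qhc_tri pM.pth
  rcases hLL with ⟨e50, nls, hn⟩ | ⟨e54, nlx, hn, e64⟩
  · have e53 : G.Adj l n := (n3 l lK).1 e50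
    have e64 := hn.rb
    have d54 : l ≠ s ∧ ¬ G.Adj l s := ⟨nadj eys lK, nls⟩
    have cl4 : ∀ v ∈ L, ¬ G.Adj s v := fun v hv h => hn.Lb v hv h.symm
    by_cases e60 : G.Adj r x
    · have e63 : G.Adj r n := (n3 r rK).1 e60
      rcases hw with ⟨e80, nwn⟩ | ⟨e83, nwx⟩
      · have e84 : G.Adj w s := (s4 w wK).1 e80
        have d83 : w ≠ n ∧ ¬ G.Adj w n := ⟨nadj eyn wK, nwn⟩
        refine hN preHC10 (by simp [preCs]) (fun i => ([x, y, z, n, s, l, r, u', w] : List V).getD i x)
          [L, M] ⟨?_, ?_, ?_, ?_, ?_, rfl, ?_, ?_, ?_, ?_, sp⟩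
        · intro t ht; fin_cases ht <;> assumption
        · intro t ht; fin_cases ht <;> assumption
        · intro t ht; fin_cases ht <;> assumption
        · intro t ht; exact absurd ht (by simp [preHC10])
        · intro t ht; exact absurd ht (by simp [preHC10])
        · intro t ht; fin_cases ht <;> assumption
        · intro t ht; fin_cases ht <;> assumption
        · intro t ht i hi
          have hi' : i < 9 := hi
          fin_cases ht <;> interval_cases i <;> assumption
        · intro t ht i hi hU h1 h2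
          have hi' : i < 9 := hi
          fin_cases ht <;> interval_cases i <;>
            first
            | assumption
            | exact absurd rfl h1
            | exact absurd rfl h2
            | exact absurd (by simp) hU
      · have d80 : w ≠ x ∧ ¬ G.Adj w x := ⟨nadj eyx wK, nwx⟩
        have d84 : w ≠ s ∧ ¬ G.Adj w s := ⟨nadj eys wK, fun h => nwx ((s4 w wK).2 h)⟩
        refine hN preHC11 (by simp [preCs]) (fun i => ([x, y, z, n, s, l, r, u', w] : List V).getD i x)
          [L, M] ⟨?_, ?_, ?_, ?_, ?_, rfl, ?_, ?_, ?_, ?_, sp⟩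
        · intro t ht; fin_cases ht <;> assumption
        · intro t ht; fin_cases ht <;> assumption
        · intro t ht; fin_cases ht <;> assumption
        · intro t ht; exact absurd ht (by simp [preHC11])
        · intro t ht; exact absurd ht (by simp [preHC11])
        · intro t ht; fin_cases ht <;> assumption
        · intro t ht; fin_cases ht <;> assumption
        · intro t ht i hi
          have hi' : i < 9 := hi
          fin_cases ht <;> interval_cases i <;> assumption
        · intro t ht i hi hU h1 h2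
          have hi' : i < 9 := hi
          fin_cases ht <;> interval_cases i <;>
            first
            | assumption
            | exact absurd rfl h1
            | exact absurd rfl h2
            | exact absurd (by simp) hU
    · have d60 : r ≠ x ∧ ¬ G.Adj r x := ⟨nadj eyx rK, e60⟩
      have d63 : r ≠ n ∧ ¬ G.Adj r n := ⟨nadj eyn rK, fun h => e60 ((n3 r rK).2 h)⟩
      rcases hw with ⟨e80, nwn⟩ | ⟨e83, nwx⟩
      · have e84 : G.Adj w s := (s4 w wK).1 e80
        have d83 : w ≠ n ∧ ¬ G.Adj w n := ⟨nadj eyn wK, nwn⟩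
        refine hN preHC00 (by simp [preCs]) (fun i => ([x, y, z, n, s, l, r, u', w] : List V).getD i x)
          [L, M] ⟨?_, ?_, ?_, ?_, ?_, rfl, ?_, ?_, ?_, ?_, sp⟩
        · intro t ht; fin_cases ht <;> assumption
        · intro t ht; fin_cases ht <;> assumption
        · intro t ht; fin_cases ht <;> assumption
        · intro t ht; exact absurd ht (by simp [preHC00])
        · intro t ht; exact absurd ht (by simp [preHC00])
        · intro t ht; fin_cases ht <;> assumption
        · intro t ht; fin_cases ht <;> assumption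
        · intro t ht i hi
          have hi' : i < 9 := hi
          fin_cases ht <;> interval_cases i <;> assumption
        · intro t ht i hi hU h1 h2
          have hi' : i < 9 := hi
          fin_cases ht <;> interval_cases i <;>
            first
            | assumption
            | exact absurd rfl h1
            | exact absurd rfl h2
            | exact absurd (by simp) hU
      · have d80 : w ≠ x ∧ ¬ G.Adj w x := ⟨nadj eyx wK, nwx⟩
        have d84 : w ≠ s ∧ ¬ G.Adj w s := ⟨nadj eys wK, fun h => nwx ((s4 w wK).2 h)⟩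
        refine hN preHC01 (by simp [preCs]) (fun i => ([x, y, z, n, s, l, r, u', w] : List V).getD i x)
          [L, M] ⟨?_, ?_, ?_, ?_, ?_, rfl, ?_, ?_, ?_, ?_, sp⟩
        · intro t ht; fin_cases ht <;> assumption
        · intro t ht; fin_cases ht <;> assumption
        · intro t ht; fin_cases ht <;> assumption
        · intro t ht; exact absurd ht (by simp [preHC01])
        · intro t ht; exact absurd ht (by simp [preHC01])
        · intro t ht; fin_cases ht <;> assumption
        · intro t ht; fin_cases ht <;> assumption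
        · intro t ht i hi
          have hi' : i < 9 := hi
          fin_cases ht <;> interval_cases i <;> assumption
        · intro t ht i hi hU h1 h2
          have hi' : i < 9 := hi
          fin_cases ht <;> interval_cases i <;>
            first
            | assumption
            | exact absurd rfl h1
            | exact absurd rfl h2
            | exact absurd (by simp) hU
  · have e60 := hn.rb
    have e63 : G.Adj r n := (n3 r rK).1 e60
    have d50 : l ≠ x ∧ ¬ G.Adj l x := ⟨nadj eyx lK, nlx⟩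
    have d53 : l ≠ n ∧ ¬ G.Adj l n := ⟨nadj eyn lK, fun h => nlx ((n3 l lK).2 h)⟩
    have cl0 : ∀ v ∈ L, ¬ G.Adj x v := fun v hv h => hn.Lb v hv h.symm
    have cl3 : ∀ v ∈ L, ¬ G.Adj n v := fun v hv h =>
      hn.Lb v hv ((n3 v (LK v hv)).2 h.symm)
    rcases hw with ⟨e80, nwn⟩ | ⟨e83, nwx⟩
    · have e84 : G.Adj w s := (s4 w wK).1 e80
      have d83 : w ≠ n ∧ ¬ G.Adj w n := ⟨nadj eyn wK, nwn⟩
      refine hN preHC20 (by simp [preCs]) (fun i => ([x, y, z, n, s, l, r, u', w] : List V).getD i x)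
        [L, M] ⟨?_, ?_, ?_, ?_, ?_, rfl, ?_, ?_, ?_, ?_, sp⟩
      · intro t ht; fin_cases ht <;> assumption
      · intro t ht; fin_cases ht <;> assumption
      · intro t ht; fin_cases ht <;> assumption
      · intro t ht; exact absurd ht (by simp [preHC20])
      · intro t ht; exact absurd ht (by simp [preHC20])
      · intro t ht; fin_cases ht <;> assumption
      · intro t ht; fin_cases ht <;> assumption
      · intro t ht i hi
        have hi' : i < 9 := hi
        fin_cases ht <;> interval_cases i <;> assumption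
      · intro t ht i hi hU h1 h2
        have hi' : i < 9 := hi
        fin_cases ht <;> interval_cases i <;>
          first
          | assumption
          | exact absurd rfl h1
          | exact absurd rfl h2
          | exact absurd (by simp) hU
    · have d80 : w ≠ x ∧ ¬ G.Adj w x := ⟨nadj eyx wK, nwx⟩
      have d84 : w ≠ s ∧ ¬ G.Adj w s := ⟨nadj eys wK, fun h => nwx ((s4 w wK).2 h)⟩
      refine hN preHC21 (by simp [preCs]) (fun i => ([x, y, z, n, s, l, r, u', w] : List V).getD i x)
        [L, M] ⟨?_, ?_, ?_, ?_, ?_, rfl, ?_, ?_, ?_, ?_, sp⟩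
      · intro t ht; fin_cases ht <;> assumption
      · intro t ht; fin_cases ht <;> assumption
      · intro t ht; fin_cases ht <;> assumption
      · intro t ht; exact absurd ht (by simp [preHC21])
      · intro t ht; exact absurd ht (by simp [preHC21])
      · intro t ht; fin_cases ht <;> assumption
      · intro t ht; fin_cases ht <;> assumption
      · intro t ht i hi
        have hi' : i < 9 := hi
        fin_cases ht <;> interval_cases i <;> assumption
      · intro t ht i hi hU h1 h2
        have hi' : i < 9 := hi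
        fin_cases ht <;> interval_cases i <;>
          first
          | assumption
          | exact absurd rfl h1
          | exact absurd rfl h2
          | exact absurd (by simp) hU

end Pool.Agent.Helper64.FL
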