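import Pool.Agent.Helper64.FL.StG

set_option autoImplicit false

/-!
FL, module SPN: shortest path between two sets.
-/

namespace Pool.Agent.Helper64.FL

open Pool.Agent.Helper64.CT Pool.Agent.Helper64.DT
open Pool.Agent.Helper64.HG (Ovl Model Circ IC HellyCircle ChordModel)

variable {V : Type}

/-- walk of length `n` in `S` from `A` to `B` -/
def spn_W (G : SimpleGraph V) (S A B : Set V) (n : ℕ) : Prop :=
  ∃ p : ℕ → V, p 0 ∈ A ∧ p n ∈ B ∧ (∀ i, i ≤ n → p i ∈ S) ∧ ∀ i, i < n → G.Adj (p i) (p (i + 1))

theorem spn_walk (G : SimpleGraph V) (S : Set V) (x y : V) (h : Cn G S x y) :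
    ∃ (n : ℕ) (p : ℕ → V), p 0 = x ∧ p n = y ∧ (∀ i, i ≤ n → p i ∈ S) ∧
      ∀ i, i < n → G.Adj (p i) (p (i + 1)) := by
  obtain ⟨hx, h⟩ := h
  induction h with
  | refl =>
    refine ⟨0, fun _ => x, rfl, rfl, fun _ _ => hx, ?_⟩
    intro i hi
    exact absurd hi (Nat.not_lt_zero _)
  | tail _ h2 ih =>
    rename_i u w _
    obtain ⟨n, p, p0, pn, pS, pa⟩ := ih
    refine ⟨n + 1, fun k => if k ≤ n then p k else w, ?_, ?_, ?_, ?_⟩
    · simp only [Nat.zero_le, if_true]
      exact p0
    · simp only [show ¬ (n + 1 ≤ n) from by omega, if_false]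
    · intro i _
      by_cases h : i ≤ n
      · simp only [h, if_true]
        exact pS i h
      · simp only [h, if_false]
        exact h2.2
    · intro i hi
      by_cases h : i + 1 ≤ n
      · simp only [h, show i ≤ n from by omega, if_true]
        exact pa i (by omega)
      · have hin : i = n := by omega
        subst hin
        simp only [le_refl, if_true, show ¬ (i + 1 ≤ i) from by omega, if_false]
        rw [pn]
        exact h2.1

theorem spn_ipt (G : SimpleGraph V) (p : ℕ → V) : ∀ (m k : ℕ),
    (∀ i j, k ≤ i → i < j → j < k + m → p i ≠ p j) →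
    (∀ i, k ≤ i → i + 1 < k + m → G.Adj (p i) (p (i + 1))) →
    (∀ i j, k ≤ i → i + 1 < j → j < k + m → ¬ G.Adj (p i) (p j)) →
    IPt G (List.map p (List.range' k m)) := by
  intro m
  induction m with
  | zero =>
    intro k _ _ _
    simp [IPt]
  | succ m ih =>
    intro k h1 h2 h3
    rw [List.range'_succ, List.map_cons]
    refine ⟨?_, ?_, ?_, ?_⟩
    · intro x hx
      obtain ⟨j, hj, rfl⟩ := List.mem_map.mp hx
      rw [List.mem_range'_1] at hj
      exact h1 k j le_rfl (by omega) (by omega)
    · intro b hb
      cases m with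
      | zero => simp at hb
      | succ m =>
        rw [List.range'_succ, List.map_cons, List.head?_cons] at hb
        obtain rfl := Option.mem_some_iff.mp hb
        exact h2 k le_rfl (by omega)
    · intro x hx
      cases m with
      | zero => simp at hx
      | succ m =>
        rw [List.range'_succ, List.map_cons, List.tail_cons] at hx
        obtain ⟨j, hj, rfl⟩ := List.mem_map.mp hx
        rw [List.mem_range'_1] at hj
        exact h3 k j le_rfl (by omega) (by omega)
    · apply ih
      · intro i j hi hij hj
        exact h1 i j (by omega) hij (by omega)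
      · intro i hi hj
        exact h2 i (by omega) (by omega)
      · intro i j hi hij hj
        exact h3 i j (by omega) hij (by omega)

/-- SPN -/
theorem st_SPN : ST_SPN := by
  classical
  intro V G S A B hab
  have hex : ∃ n, spn_W G S A B n := by
    obtain ⟨a, ha, b, hb, h⟩ := hab
    obtain ⟨n, p, p0, pn, pS, pa⟩ := spn_walk G S a b h
    exact ⟨n, p, by rw [p0]; exact ha, by rw [pn]; exact hb, pS, pa⟩
  set n := Nat.find hex with hn
  obtain ⟨p, p0, pn, pS, pa⟩ : spn_W G S A B n := Nat.find_spec hex
  have hmin : ∀ m, m < n → ¬ spn_W G S A B m := fun m hm => Nat.find_min hex hm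
  have hA : ∀ i, 1 ≤ i → i ≤ n → p i ∉ A := by
    intro i hi hin hiA
    apply hmin (n - i) (by omega)
    refine ⟨fun k => p (k + i), ?_, ?_, ?_, ?_⟩
    · simpa using hiA
    · show p (n - i + i) ∈ B
      rw [Nat.sub_add_cancel hin]
      exact pn
    · intro k hk
      exact pS _ (by omega)
    · intro k hk
      show G.Adj (p (k + i)) (p (k + 1 + i))
      rw [show k + 1 + i = k + i + 1 from by omega]
      exact pa _ (by omega)
  have hB : ∀ i, i < n → p i ∉ B := by
    intro i hi hiB
    exact hmin i hi ⟨p, p0, hiB, fun k hk => pS k (by omega), fun k hk => pa k (by omega)⟩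
  have hadj : ∀ i j, i + 1 < j → j ≤ n → ¬ G.Adj (p i) (p j) := by
    intro i j hij hj hadj
    apply hmin (n - (j - i - 1)) (by omega)
    refine ⟨fun k => if k ≤ i then p k else p (k + (j - i - 1)), ?_, ?_, ?_, ?_⟩
    · simp only [Nat.zero_le, if_true]
      exact p0
    · have h1 : ¬ (n - (j - i - 1) ≤ i) := by omega
      simp only [h1, if_false]
      rw [show n - (j - i - 1) + (j - i - 1) = n from by omega]
      exact pn
    · intro k hk
      by_cases h : k ≤ i
      · simp only [h, if_true]
        exact pS k (by omega)
      · simp only [h, if_false]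
        exact pS _ (by omega)
    · intro k hk
      by_cases h : k + 1 ≤ i
      · simp only [h, show k ≤ i from by omega, if_true]
        exact pa k (by omega)
      · by_cases h' : k ≤ i
        · have hk' : k = i := by omega
          subst hk'
          simp only [le_refl, if_true, h, if_false]
          rw [show k + 1 + (j - k - 1) = j from by omega]
          exact hadj
        · simp only [h, h', if_false]
          rw [show k + 1 + (j - i - 1) = k + (j - i - 1) + 1 from by omega]
          exact pa _ (by omega)
  have hne : ∀ i j, i < j → j ≤ n → p i ≠ p j := by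
    intro i j hij hj heq
    rcases Nat.lt_or_ge j n with h | h
    · apply hadj i (j + 1) (by omega) (by omega)
      rw [heq]
      exact pa j h
    · have hjn : j = n := by omega
      subst hjn
      apply hB i hij
      rw [heq]
      exact pn
  refine ⟨p 0, List.map p (List.range' 1 (n - 1)), p n, p0, pS 0 (Nat.zero_le _), pn,
    pS n le_rfl, ?_, ?_, ?_⟩
  · rcases Nat.eq_zero_or_pos n with h0 | h0
    · left
      rw [h0]
      exact ⟨rfl, rfl⟩
    · right
      refine ⟨hne 0 n h0 le_rfl, ?_⟩
      have e1 : p 0 :: (List.map p (List.range' 1 (n - 1)) ++ [p n]) =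
          List.map p (List.range' 0 (n + 1)) := by
        rw [List.range'_succ, List.map_cons]
        congr 1
        obtain ⟨m, hm⟩ : ∃ m, n = m + 1 := ⟨n - 1, by omega⟩
        rw [hm, Nat.add_sub_cancel, Nat.zero_add, List.range'_1_concat, List.map_append,
          List.map_singleton, Nat.add_comm 1 m]
      rw [e1]
      apply spn_ipt
      · intro i j _ hij hj
        exact hne i j hij (by omega)
      · intro i _ hi
        exact pa i (by omega)
      · intro i j _ hij hj
        exact hadj i j hij (by omega)
  · intro u hu
    obtain ⟨j, hj, rfl⟩ := List.mem_map.mp hu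
    rw [List.mem_range'_1] at hj
    exact ⟨pS j (by omega), hA j (by omega) (by omega), hB j (by omega)⟩
  · intro hne0
    have h0 : 0 < n := by
      rcases Nat.eq_zero_or_pos n with h0 | h0
      · rw [h0] at hne0
        exact absurd rfl hne0
      · exact h0
    exact ⟨hB 0 h0, hA n h0 le_rfl⟩

end Pool.Agent.Helper64.FL
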